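import Pool.Agent.N637.SLX.Stm3

/-!
# SLX-SCH: from the densities of the points to the densities of all the sets

Author: helper697 (project SLX of helper637).
-/

set_option autoImplicit false
set_option linter.unusedVariables false

open scoped Classical

namespace Pool.Agent.N697.SLX

open Finset Filter Topology

section

variable {F : ℕ → Prop} {J : ℕ × ℕ → ℕ → Prop}

theorem disj (hJ : ∀ n, F n → ∃! a, J a n) (X : ℕ) {a b : ℕ × ℕ} (hab : a ≠ b) :
    Disjoint ((Icc 1 X).filter fun n => F n ∧ J a n) ((Icc 1 X).filter fun n => F n ∧ J b n) := by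
  rw [Finset.disjoint_left]
  intro n h1 h2
  have h3 := (Finset.mem_filter.1 h1).2
  have h4 := (Finset.mem_filter.1 h2).2
  exact hab ((hJ n h3.1).unique h3.2 h4.2)

theorem sum_card (hJ : ∀ n, F n → ∃! a, J a n) (X : ℕ) (B : Finset (ℕ × ℕ)) :
    ∑ a ∈ B, ((Icc 1 X).filter fun n => F n ∧ J a n).card =
      (B.biUnion fun a => (Icc 1 X).filter fun n => F n ∧ J a n).card :=
  (Finset.card_biUnion fun a _ b _ hab => disj hJ X hab).symm

theorem lower (hJ : ∀ n, F n → ∃! a, J a n) (X : ℕ) (A : Set (ℕ × ℕ)) (B : Finset (ℕ × ℕ))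
    (hB : ∀ a ∈ B, a ∈ A) :
    ∑ a ∈ B, ((Icc 1 X).filter fun n => F n ∧ J a n).card ≤
      ((Icc 1 X).filter fun n => F n ∧ ∃ a ∈ A, J a n).card := by
  rw [sum_card hJ]
  apply Finset.card_le_card
  intro n hn
  obtain ⟨a, ha, hn⟩ := Finset.mem_biUnion.1 hn
  obtain ⟨h1, h2, h3⟩ := Finset.mem_filter.1 hn
  exact Finset.mem_filter.2 ⟨h1, h2, a, hB a ha, h3⟩

theorem upper (hJ : ∀ n, F n → ∃! a, J a n) (X : ℕ) (A : Set (ℕ × ℕ)) (B : Finset (ℕ × ℕ))
    (hB : ∀ a ∈ B, a ∉ A) :
    ((Icc 1 X).filter fun n => F n ∧ ∃ a ∈ A, J a n).card +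
      ∑ a ∈ B, ((Icc 1 X).filter fun n => F n ∧ J a n).card ≤
      ((Icc 1 X).filter fun n => F n).card := by
  rw [sum_card hJ, ← Finset.card_union_of_disjoint]
  · apply Finset.card_le_card
    intro n hn
    rcases Finset.mem_union.1 hn with hn | hn
    · obtain ⟨h1, h2, h3⟩ := Finset.mem_filter.1 hn
      exact Finset.mem_filter.2 ⟨h1, h2⟩
    · obtain ⟨a, ha, hn⟩ := Finset.mem_biUnion.1 hn
      obtain ⟨h1, h2, h3⟩ := Finset.mem_filter.1 hn
      exact Finset.mem_filter.2 ⟨h1, h2⟩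
  · rw [Finset.disjoint_left]
    intro n h1 h2
    obtain ⟨a, ha, h2⟩ := Finset.mem_biUnion.1 h2
    obtain ⟨-, h3, b, hb, h4⟩ := Finset.mem_filter.1 h1
    obtain ⟨-, -, h5⟩ := Finset.mem_filter.1 h2
    have h6 := (hJ n h3).unique h5 h4
    exact hB a ha (h6 ▸ hb)

end

/-- Scheffé's lemma -/
theorem t_SCH : Pool.Agent.N637.SLX.S_SCH := by
  intro F J p hJ hp0 hp1 hlim A
  have hind0 : ∀ a, 0 ≤ A.indicator p a := fun a => Set.indicator_nonneg (fun b _ => hp0 b) a
  have hindle : ∀ a, A.indicator p a ≤ p a := fun a => Set.indicator_le_self' (fun b _ => hp0 b) a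
  have hsum : Summable (A.indicator p) := hp1.summable.indicator A
  have hP : HasSum (A.indicator p) (∑' a : A, p a.1) := by
    have h1 := hsum.hasSum
    rw [← tsum_subtype A p] at h1
    exact h1
  set P : ℝ := ∑' a : A, p a.1 with hPdef
  have hC : HasSum (fun a => p a - A.indicator p a) (1 - P) := hp1.sub hP
  set N : ℕ → ℝ := fun X => (((Icc 1 X).filter fun n => F n).card : ℝ) with hN
  have hN0 : ∀ X, 0 ≤ N X := fun X => Nat.cast_nonneg _
  have hBlim : ∀ B : Finset (ℕ × ℕ), Tendsto (fun X : ℕ => ∑ a ∈ B,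
      (((Icc 1 X).filter fun n => F n ∧ J a n).card : ℝ) / N X) atTop (𝓝 (∑ a ∈ B, p a)) :=
    fun B => tendsto_finsetSum B fun a _ => hlim a
  rw [tendsto_order]
  constructor
  · intro l hl
    obtain ⟨B, hB⟩ := (hP.eventually (eventually_gt_nhds hl)).exists
    set B' := B.filter (fun a => a ∈ A) with hB'
    have e1 : ∑ a ∈ B', p a = ∑ a ∈ B, A.indicator p a := by
      rw [hB', Finset.sum_filter]
      refine Finset.sum_congr rfl fun a _ => ?_
      by_cases h : a ∈ A
      · rw [if_pos h, Set.indicator_of_mem h]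
      · rw [if_neg h, Set.indicator_of_notMem h]
    have h1 := hBlim B'
    rw [e1] at h1
    filter_upwards [h1.eventually (eventually_gt_nhds hB)] with X hX
    refine lt_of_lt_of_le hX ?_
    rw [← Finset.sum_div]
    refine div_le_div_of_nonneg_right ?_ (hN0 X)
    have h2 := lower hJ X A B' (fun a ha => (Finset.mem_filter.1 ha).2)
    exact_mod_cast h2
  · intro u hu
    obtain ⟨B, hB⟩ := (hC.eventually (eventually_gt_nhds (sub_lt_sub_left hu 1))).exists
    set B' := B.filter (fun a => a ∉ A) with hB'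
    have e1 : ∑ a ∈ B', p a = ∑ a ∈ B, (p a - A.indicator p a) := by
      rw [hB', Finset.sum_filter]
      refine Finset.sum_congr rfl fun a _ => ?_
      by_cases h : a ∈ A
      · rw [if_neg (not_not.2 h), Set.indicator_of_mem h, sub_self]
      · rw [if_pos h, Set.indicator_of_notMem h, sub_zero]
    have h1 := hBlim B'
    rw [e1] at h1
    filter_upwards [h1.eventually (eventually_gt_nhds hB)] with X hX
    rw [← Finset.sum_div] at hX
    have h2 := upper hJ X A B' (fun a ha => (Finset.mem_filter.1 ha).2)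
    have h3 : (((Icc 1 X).filter fun n => F n ∧ ∃ a ∈ A, J a n).card : ℝ) +
        ∑ a ∈ B', (((Icc 1 X).filter fun n => F n ∧ J a n).card : ℝ) ≤ N X := by
      show _ ≤ (((Icc 1 X).filter fun n => F n).card : ℝ)
      exact_mod_cast h2
    have h4 := div_le_div_of_nonneg_right h3 (hN0 X)
    rw [add_div] at h4
    have h5 : N X / N X ≤ 1 := div_self_le_one _
    have h6 : (((Icc 1 X).filter fun n => F n ∧ ∃ a ∈ A, J a n).card : ℝ) / N X < u := by
      linarith
    exact h6

end Pool.Agent.N697.SLX
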